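import Pool.Agent.Helper33.DP.Sheet

/-!
# Version 3 (MP_fcb106_co): feedback rounding (helper95), exponent 7

Sections 0-4 and the order part of version 1 are unchanged.
-/

set_option autoImplicit false

namespace Pool.Agent.Helper33.DP3

open Finset Pool.Agent.Helper33.DP

/-- The class of the error vectors. -/
def BB {w : ℕ} (g : Fin w → ℝ) : Prop :=
  ∑ x, g x = 0 ∧ ∀ S : Finset (Fin w), ∑ x ∈ S, g x ≤ S.card * (w - S.card : ℝ)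

/-- The scale: the potential is at most `1 / gam w m`, for a graph with `m` edges. -/
def gam (w m : ℕ) : ℝ := 3 * w * m

/-- The good states of a gap. -/
def Good3 {w : ℕ} (G : Gr w) (μ : Fin w → Fin w → ℕ) : Prop :=
  (∀ a b, (a, b) ∉ G → μ a b = 0) ∧
  ∃ ρ dR dC : Fin w → Fin w → ℝ,
    (∀ a b, (a, b) ∉ G → ρ a b = 0 ∧ dR a b = 0 ∧ dC a b = 0) ∧
    (∀ a b, (μ a b : ℝ) = ρ a b + dR a b + dC a b) ∧
    Bdd G ρ (1 / gam w G.card) ∧ (∀ a, BB (dR a)) ∧ ∀ b, BB (fun a => dC a b)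

/-! ### the rows -/

/-- BB1, averaging by a doubly stochastic matrix. -/
def ST_BB1 : Prop :=
  ∀ (w : ℕ) (P : Fin w → Fin w → ℝ) (g : Fin w → ℝ), (∀ x b, 0 ≤ P x b) →
    (∀ x, ∑ b, P x b = 1) → (∀ b, ∑ x, P x b = 1) → BB g → BB (fun x => ∑ b, P x b * g b)

/-- BB2, convex combinations. -/
def ST_BB2 : Prop :=
  ∀ (w : ℕ) (c : Fin w → ℝ) (g : Fin w → Fin w → ℝ), (∀ b, 0 ≤ c b) → ∑ b, c b = 1 →
    (∀ b, BB (fun a => g a b)) → BB (fun a => ∑ b, c b * g a b)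

/-- BB3, the size of the entries. -/
def ST_BB3 : Prop := ∀ (w : ℕ) (g : Fin w → ℝ), BB g → ∀ x, |g x| ≤ (w : ℝ) - 1

/-- LR, feedback rounding. -/
def ST_LR : Prop :=
  ∀ (w : ℕ) (g : Fin w → ℝ) (y : Fin w → Fin w → ℝ) (n : Fin w → ℕ), BB g →
    (∀ b x, 0 ≤ y b x) → (∀ b, ∑ x, y b x = n b) →
    ∃ y' : Fin w → Fin w → ℕ, (∀ b, ∑ x, y' b x = n b) ∧ (∀ b x, |(y' b x : ℝ) - y b x| < 1) ∧
      (∀ b x, y b x = 0 → y' b x = 0) ∧ BB (fun x => g x + ∑ b, ((y' b x : ℝ) - y b x))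

/-- CR, the rounding of a constant vector. -/
def ST_CR : Prop :=
  ∀ (w n m : ℕ) (C S : Finset (Fin w)) (y : Fin w → ℕ), C.card = n → 1 ≤ n → S ⊆ C →
    ∑ x ∈ C, y x = m → (∀ x ∈ C, |(y x : ℝ) - m / n| < 1) →
    ∑ x ∈ S, ((y x : ℝ) - m / n) ≤ S.card * (n - S.card : ℝ) / n

/-- PEX3, the choice of the routing matrix. -/
def ST_PEX3 : Prop :=
  ∀ (w : ℕ) (G₂ : Gr w) (s : Fin w → ℝ) (β β' : ℝ), 1 ≤ w → IsCore G₂ → (∀ b, 0 < s b) →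
    ∑ e ∈ G₂, (s e.2)⁻¹ ≤ β → β < β' →
    ∃ P, DS G₂ P ∧ Bdd G₂ (fun x b => P x b * s b) β'

/-- GB3, what a good state gives. -/
def ST_GB3 : Prop :=
  ∀ (w : ℕ) (G : Gr w) (μ : Fin w → Fin w → ℕ), 1 ≤ w → IsCore G → Good3 G μ →
    (∀ a b, (a, b) ∈ G → 1 ≤ μ a b) ∧
    Bdd G (fun a b => (μ a b : ℝ)) (1 / (gam w G.card - 2 * (w - 1)))

/-- GT3, transposition of good states. -/
def ST_GT3 : Prop :=
  ∀ (w : ℕ) (G : Gr w) (μ : Fin w → Fin w → ℕ), Good3 G μ → Good3 (tr G) (fun a b => μ b a)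

/-- The conclusion of a step. -/
def StepC3 {w : ℕ} (G₁ G₂ : Gr w) (μ : Fin w → Fin w → ℕ) : Prop :=
  ∃ z, Route G₁ G₂ μ z ∧ Good3 G₁ (fun a x => ∑ b, z a x b) ∧ Good3 G₂ (fun x b => ∑ a, z a x b)

/-- Case A. -/
def ST_A3 : Prop :=
  ∀ (w : ℕ) (G G₁ G₂ : Gr w) (μ : Fin w → Fin w → ℕ), 1 ≤ w → IsCore G → IsCore G₁ → IsCore G₂ →
    comp G₁ G₂ ⊆ G → Good3 G μ → G₁.card < G.card → G₂.card < G.card → StepC3 G₁ G₂ μ

/-- Case B. -/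
def ST_B3 : Prop :=
  ∀ (w : ℕ) (G G₁ G₂ : Gr w) (μ : Fin w → Fin w → ℕ), 1 ≤ w → IsCore G → IsCore G₁ → IsCore G₂ →
    comp G₁ G₂ ⊆ G → Good3 G μ → G₁.card = G.card → G₂.card < G.card → StepC3 G₁ G₂ μ

/-- Case B transposed. -/
def ST_BT3 : Prop :=
  ∀ (w : ℕ) (G G₁ G₂ : Gr w) (μ : Fin w → Fin w → ℕ), 1 ≤ w → IsCore G → IsCore G₁ → IsCore G₂ →
    comp G₁ G₂ ⊆ G → Good3 G μ → G₁.card < G.card → G₂.card = G.card → StepC3 G₁ G₂ μ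

/-- Case C. -/
def ST_C3 : Prop :=
  ∀ (w : ℕ) (G G₁ G₂ : Gr w) (μ : Fin w → Fin w → ℕ), 1 ≤ w → IsCore G → IsCore G₁ → IsCore G₂ →
    comp G₁ G₂ ⊆ G → Good3 G μ → G₁.card = G.card → G₂.card = G.card → StepC3 G₁ G₂ μ

/-- START3, the complete graph. -/
def ST_START3 : Prop :=
  ∀ w : ℕ, 1 ≤ w → Good3 (univ : Gr w) (fun _ _ => 3 * w ^ 4)

/-- S3, the strategy theorem. -/
def ST_S3 : Prop := ∀ w : ℕ, 1 ≤ w → ∃ Good, Strat w (3 * w ^ 6) Good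

/-- The final theorem. -/
def ST_FINAL3 : Prop :=
  ∀ w : ℕ, 1 ≤ w → Pool.Agent.Helper3.DW.Suffices w (3 * w ^ 7)

end Pool.Agent.Helper33.DP3
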